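import Mathlib

namespace Pool.Agent.H.MP_79f629_co
open List

def step : List ℕ → List ℕ
  | [] => []
  | k :: l => l.insertIdx (k - 1) k

def Reach (s t : List ℕ) : Prop := ∃ j, step^[j] s = t

lemma Reach.rfl' (s : List ℕ) : Reach s s := ⟨0, rfl⟩

lemma Reach.trans' {a b c : List ℕ} (h1 : Reach a b) (h2 : Reach b c) : Reach a c := by
  obtain ⟨i, rfl⟩ := h1
  obtain ⟨j, rfl⟩ := h2
  exact ⟨j + i, Function.iterate_add_apply _ _ _ _⟩

lemma Reach.one {a b : List ℕ} (h : step a = b) : Reach a b := ⟨1, h⟩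

lemma Reach.total {a b c : List ℕ} (h1 : Reach a b) (h2 : Reach a c) : Reach b c ∨ Reach c b := by
  obtain ⟨i, rfl⟩ := h1
  obtain ⟨j, rfl⟩ := h2
  rcases le_total i j with h | h
  · left
    refine ⟨j - i, ?_⟩
    rw [← Function.iterate_add_apply, Nat.sub_add_cancel h]
  · right
    refine ⟨i - j, ?_⟩
    rw [← Function.iterate_add_apply, Nat.sub_add_cancel h]

lemma ins_left (A B : List ℕ) (x : ℕ) : ∀ i, i ≤ A.length →
    (A ++ B).insertIdx i x = A.insertIdx i x ++ B := by
  induction A with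
  | nil => intro i hi; obtain rfl : i = 0 := by simpa using hi
           simp
  | cons a A ih =>
    intro i hi
    cases i with
    | zero => simp
    | succ i =>
      simp only [cons_append, insertIdx_succ_cons]
      rw [ih i (by simpa using hi)]

lemma ins_right (A B : List ℕ) (x i : ℕ) :
    (A ++ B).insertIdx (A.length + i) x = A ++ B.insertIdx i x := by
  induction A with
  | nil => simp
  | cons a A ih =>
    have : (a :: A).length + i = (A.length + i) + 1 := by simp; ring
    rw [this]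
    simp only [cons_append, insertIdx_succ_cons, ih]

lemma step_mid (k : ℕ) (A B : List ℕ) (h : A.length + 1 = k) :
    step (k :: (A ++ B)) = A ++ k :: B := by
  have : k - 1 = A.length + 0 := by omega
  simp only [step]
  rw [this, ins_right]; simp

def fl (a : ℕ) (A : List ℕ) : List ℕ := A.filter (fun x => decide (a < x))

lemma fl_append (a : ℕ) (A B : List ℕ) : fl a (A ++ B) = fl a A ++ fl a B := by simp [fl]

lemma fl_fl {a b : ℕ} (h : a ≤ b) (A : List ℕ) : fl b (fl a A) = fl b A := by
  unfold fl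
  rw [filter_filter]
  congr 1
  funext x
  by_cases hx : b < x
  · have : a < x := by omega
    simp [hx, this]
  · simp [hx]

lemma fl_mono {a b : ℕ} (h : a ≤ b) {A B : List ℕ} (e : fl a A = fl a B) : fl b A = fl b B := by
  rw [← fl_fl h A, e, fl_fl h]

lemma fl_pos {a x : ℕ} (h : a < x) (A : List ℕ) : fl a (x :: A) = x :: fl a A := by
  simp [fl, h]

lemma fl_neg {a x : ℕ} (h : x ≤ a) (A : List ℕ) : fl a (x :: A) = fl a A := by
  have : ¬ a < x := by omega
  simp [fl, this]

lemma fl_nil (a : ℕ) : fl a [] = [] := rfl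

lemma fl_ins {a x : ℕ} (h : x ≤ a) (A : List ℕ) : ∀ i, fl a (A.insertIdx i x) = fl a A := by
  induction A with
  | nil => intro i; cases i with
    | zero => simp [fl_neg h]
    | succ i => simp
  | cons y A ih =>
    intro i
    cases i with
    | zero => simp [fl_neg h]
    | succ i =>
      rw [insertIdx_succ_cons]
      by_cases hy : a < y
      · rw [fl_pos hy, fl_pos hy, ih]
      · rw [fl_neg (by omega), fl_neg (by omega), ih]

lemma adv (r : ℕ) (hr : 1 ≤ r) : ∀ A R : List ℕ, A.length = r → A.Nodup → (∀ x ∈ A, 2 ≤ x) →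
    ∃ y A', Reach (A ++ R) (y :: (A' ++ R)) ∧ r < y ∧ (y :: A') ~ A ∧
      fl r (y :: A') = fl r A := by
  induction r, hr using Nat.le_induction with
  | base =>
    intro A R hl _ h2
    obtain ⟨y, rfl⟩ := length_eq_one_iff.1 hl
    exact ⟨y, [], Reach.rfl' _, h2 y (by simp), Perm.refl _, rfl⟩
  | succ r hr ih =>
    intro A R hl hn h2
    rcases eq_nil_or_concat' A with rfl | ⟨A0, z, rfl⟩
    · simp at hl
    have hl0 : A0.length = r := by simpa using hl
    obtain ⟨y, A', h1, hy, hp, hf⟩ := ih A0 (z :: R) hl0 (Nodup.of_append_left hn)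
      (fun x hx => h2 x (by simp [hx]))
    have hp' : y :: (A' ++ [z]) ~ A0 ++ [z] := by
      simpa using hp.append_right [z]
    have hf' : fl (r + 1) (y :: (A' ++ [z])) = fl (r + 1) (A0 ++ [z]) := by
      rw [← cons_append, fl_append, fl_append, fl_mono (Nat.le_succ r) hf]
    by_cases hy' : r + 1 < y
    · refine ⟨y, A' ++ [z], by simpa using h1, hy', hp', hf'⟩
    · have hyr : y = r + 1 := by omega
      have hlA : A'.length + 1 = r := by simpa [hl0] using hp.length_eq
      have hn' : (y :: (A' ++ [z])).Nodup := hp'.nodup_iff.2 hn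
      obtain ⟨y2, A2, h3, hy2, hp2, hf2⟩ := ih (A' ++ [z]) (y :: R) (by simpa using hlA)
        (nodup_cons.1 hn').2 (fun x hx => h2 x (hp'.subset (mem_cons_of_mem _ hx)))
      have hne : y2 ≠ y := by
        rintro rfl
        exact (nodup_cons.1 hn').1 (hp2.subset (by simp))
      refine ⟨y2, A2 ++ [y], ?_, by omega, ?_, ?_⟩
      · have hs : step (y :: ((A' ++ [z]) ++ R)) = (A' ++ [z]) ++ y :: R :=
          step_mid _ _ _ (by simp; omega)
        have h1' : Reach (A0 ++ [z] ++ R) (y :: ((A' ++ [z]) ++ R)) := by simpa using h1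
        exact h1'.trans' ((Reach.one hs).trans' (by simpa using h3))
      · refine Perm.trans ?_ hp'
        have : y2 :: (A2 ++ [y]) ~ (A' ++ [z]) ++ [y] := by simpa using hp2.append_right [y]
        exact this.trans (perm_append_comm)
      · rw [← hf', ← cons_append, fl_append, fl_mono (Nat.le_succ r) hf2, fl_neg hyr.le,
          fl_neg hyr.le, fl_nil, append_nil]

def P (n : ℕ) (s : List ℕ) : Prop := s ~ range' 1 n

lemma P.nodup {n : ℕ} {s : List ℕ} (h : P n s) : s.Nodup := (Perm.nodup_iff h).2 nodup_range'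

lemma P.mem {n : ℕ} {s : List ℕ} (h : P n s) (x : ℕ) : x ∈ s ↔ 1 ≤ x ∧ x ≤ n := by
  rw [Perm.mem_iff h, mem_range'_1]; omega

lemma P.len {n : ℕ} {s : List ℕ} (h : P n s) : s.length = n := by
  simpa using Perm.length_eq h

lemma P.step {n : ℕ} {s : List ℕ} (h : P n s) : P n (step s) := by
  cases s with
  | nil => exact h
  | cons k l =>
    have h1 := (h.mem k).1 (by simp)
    have h2 := h.len
    simp only [length_cons] at h2
    exact (perm_insertIdx k l (by omega)).trans h

lemma P.reach {n : ℕ} {s t : List ℕ} (h : P n s) (hr : Reach s t) : P n t := by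
  obtain ⟨j, rfl⟩ := hr
  induction j with
  | zero => exact h
  | succ j ih => rw [Function.iterate_succ_apply']; exact ih.step

lemma sub1 (A R : List ℕ) : ∃ A' R', step (A ++ 1 :: R) = A' ++ 1 :: R' ∧ R <+ R' := by
  cases A with
  | nil => exact ⟨[], R, by simp [step], Sublist.refl _⟩
  | cons k A =>
    by_cases hk : k - 1 ≤ A.length
    · exact ⟨A.insertIdx (k - 1) k, R, by simp [step, ins_left _ _ _ _ hk], Sublist.refl _⟩
    · refine ⟨A, R.insertIdx (k - 1 - A.length - 1) k, ?_, sublist_insertIdx _ _ _⟩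
      have : k - 1 = A.length + ((k - 1 - A.length - 1) + 1) := by omega
      simp only [cons_append, step]
      rw [this, ins_right, insertIdx_succ_cons]
      congr 4
      omega

lemma sub {A R t : List ℕ} (h : Reach (A ++ 1 :: R) t) :
    ∃ A' R', t = A' ++ 1 :: R' ∧ R <+ R' := by
  obtain ⟨j, rfl⟩ := h
  induction j with
  | zero => exact ⟨A, R, rfl, Sublist.refl _⟩
  | succ j ih =>
    obtain ⟨A', R', e, hs⟩ := ih
    obtain ⟨A2, R2, e2, hs2⟩ := sub1 A' R'
    exact ⟨A2, R2, by rw [Function.iterate_succ_apply', e, e2], hs.trans hs2⟩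

lemma uniq {A B A' B' : List ℕ} {x : ℕ} (hn : (A ++ x :: B).Nodup)
    (e : A ++ x :: B = A' ++ x :: B') : A = A' ∧ B = B' := by
  have h1 : x ∉ A := fun h => by
    have := (nodup_append.1 hn).2.2 x h x (by simp)
    exact this rfl
  have h2 : x ∉ B := (nodup_cons.1 (nodup_append.1 hn).2.1).1
  have := (append_cons_inj_of_notMem h1 h2).1 e
  exact ⟨this.1, this.2.2⟩

lemma sub' {n : ℕ} {A R A' R' : List ℕ} (hP : P n (A ++ 1 :: R))
    (h : Reach (A ++ 1 :: R) (A' ++ 1 :: R')) : R <+ R' := by
  obtain ⟨A2, R2, e, hs⟩ := sub h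
  rw [(uniq (hP.reach h).nodup e).2]; exact hs

lemma one_front {n : ℕ} {F Z F1 Z1 : List ℕ} (hP : P n (F ++ Z)) (h : Reach (F ++ Z) (F1 ++ Z1))
    (hl : F.length = F1.length) (h1 : 1 ∈ Z1) : 1 ∉ F := by
  intro hF
  obtain ⟨A, B, rfl⟩ := append_of_mem hF
  obtain ⟨X, Y, rfl⟩ := append_of_mem h1
  have e1 : A ++ 1 :: B ++ Z = A ++ 1 :: (B ++ Z) := by simp
  have e2 : F1 ++ (X ++ 1 :: Y) = (F1 ++ X) ++ 1 :: Y := by simp
  have l1 := hP.len
  have l2 := (hP.reach h).len
  rw [e1] at hP h
  rw [e2] at h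
  have := (sub' hP h).length_le
  simp at l1 l2 hl this
  omega

lemma two_le {n : ℕ} {F Z : List ℕ} (hP : P n (F ++ Z)) (h1 : 1 ∉ F) : ∀ x ∈ F, 2 ≤ x := by
  intro x hx
  have := ((hP.mem x).1 (by simp [hx])).1
  have : x ≠ 1 := fun h => h1 (h ▸ hx)
  omega

lemma step_small (k : ℕ) (F Z : List ℕ) (h : k ≤ F.length + 1) :
    step (k :: F ++ Z) = F.insertIdx (k - 1) k ++ Z := by
  simp only [cons_append, step]
  rw [ins_left _ _ _ _ (by omega)]

lemma step_big (k z : ℕ) (F Z : List ℕ) (h : F.length + 1 < k) :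
    step (k :: (F ++ z :: Z)) = (F ++ [z]) ++ Z.insertIdx (k - 2 - F.length) k := by
  have : k - 1 = (F ++ [z]).length + (k - 2 - F.length) := by simp; omega
  simp only [step]
  rw [this, ← ins_right]; simp

lemma det (n c : ℕ) (hc : 1 ≤ c) (F1 Z1 : List ℕ) (hl1 : F1.length = c) (h1 : 1 ∈ Z1) :
    ∀ (j : ℕ) (F Z F' : List ℕ), P n (F ++ Z) → P n (F' ++ Z) → F.length = c → F'.length = c →
      fl c F = fl c F' → step^[j] (F ++ Z) = F1 ++ Z1 →
      ∃ F1', Reach (F' ++ Z) (F1' ++ Z1) ∧ F1'.length = c := by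
  intro j
  induction j with
  | zero =>
    intro F Z F' _ _ hl hl' _ e
    obtain ⟨-, rfl⟩ := append_inj e (hl.trans hl1.symm)
    exact ⟨F', Reach.rfl' _, hl'⟩
  | succ j ih =>
    intro F Z F' hP hP' hl hl' hf e
    have hF1 : 1 ∉ F := one_front hP ⟨_, e⟩ (hl.trans hl1.symm) h1
    have hZ1 : 1 ∈ Z := by
      have := (hP.mem 1).2 ⟨le_rfl, by have := hP.len; simp at this; omega⟩
      simpa [hF1] using this
    have hF1' : 1 ∉ F' := fun h => (nodup_append.1 hP'.nodup).2.2 1 h 1 hZ1 rfl
    rw [Function.iterate_succ_apply] at e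
    cases F with
    | nil => simp at hl; omega
    | cons k F =>
      simp only [length_cons] at hl
      have hS := hP.step
      by_cases hk : k ≤ c
      · rw [step_small _ _ _ (by omega)] at e hS
        refine ih _ Z F' hS hP' ?_ hl' ?_ e
        · rw [length_insertIdx_of_le_length (by omega)]; exact hl
        · rw [fl_ins hk, ← hf, fl_neg hk]
      · obtain ⟨z, Z, rfl⟩ : ∃ z Z', Z = z :: Z' := by
          cases Z with
          | nil => simp at hZ1
          | cons z Z => exact ⟨z, Z, rfl⟩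
        obtain ⟨y, A', hr, hy, hp, hf'⟩ := adv c hc F' (z :: Z) hl'
          (Nodup.of_append_left hP'.nodup) (two_le hP' hF1')
        rw [← hf, fl_pos hy, fl_pos (by omega)] at hf'
        obtain ⟨rfl, hf2⟩ := cons.inj hf'
        have hlA : A'.length + 1 = c := by simpa [hl'] using hp.length_eq
        have hS' := (hP'.reach hr).step
        rw [cons_append, step_big _ _ _ _ (by omega)] at e hS
        have e' := step_big y z A' Z (by omega)
        have hFA : A'.length = F.length := by omega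
        rw [hFA] at e'
        rw [e'] at hS'
        obtain ⟨F1', hr', hl2⟩ := ih (F ++ [z]) _ (A' ++ [z]) hS hS' (by simpa using hl)
          (by simpa using hlA) (by rw [fl_append, fl_append, hf2]) e
        exact ⟨F1', hr.trans' ((Reach.one e').trans' hr'), hl2⟩

end Pool.Agent.H.MP_79f629_co
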