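import Pool.Agent.H.MP_79f629_co.A

namespace Pool.Agent.H.MP_79f629_co
open List

lemma advm (n e : ℕ) (he : 1 ≤ e) (F Z : List ℕ) (hP : P n (F ++ Z)) (hl : F.length = e + 1)
    (h1 : 1 ∉ F) (k : ℕ) (W : List ℕ) (hf : fl e F = k :: W) :
    ∃ A, Reach (F ++ Z) (k :: (A ++ Z)) ∧ A.length = e ∧ fl e A = W ∧ 1 ∉ A := by
  rcases eq_nil_or_concat' F with rfl | ⟨F0, z, rfl⟩
  · simp at hl
  have hl0 : F0.length = e := by simpa using hl
  obtain ⟨y, A', hr, hy, hp, hf'⟩ := adv e he F0 (z :: Z) hl0
    (Nodup.of_append_left (Nodup.of_append_left hP.nodup))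
    (fun x hx => two_le hP h1 x (by simp [hx]))
  rw [fl_append, ← hf', fl_pos hy, cons_append] at hf
  obtain ⟨rfl, hf2⟩ := cons.inj hf
  refine ⟨A' ++ [z], by simpa using hr, ?_, by rw [fl_append, hf2], ?_⟩
  · simpa [hl0] using hp.length_eq
  · intro h
    apply h1
    rcases mem_append.1 h with h | h
    · exact mem_append_left _ (hp.subset (mem_cons_of_mem _ h))
    · exact mem_append_right _ h

lemma mark (n e : ℕ) (he : 1 ≤ e) (F1 Z1 : List ℕ) (hl1 : F1.length = e + 1) (h1 : 1 ∈ Z1)
    (r1 : ℕ) (hr1 : r1 ≤ (fl (e + 1) F1).length) :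
    ∀ (j : ℕ) (F Z : List ℕ), P n (F ++ Z) → F.length = e + 1 → e + 1 ∈ F →
      step^[j] (F ++ Z) = F1 ++ Z1 →
      ∃ r, r ≤ (fl (e + 1) F).length ∧ ∀ F', P n (F' ++ Z) → F'.length = e + 1 →
        fl e F' = (fl (e + 1) F).insertIdx r (e + 1) →
        ∃ F1', Reach (F' ++ Z) (F1' ++ Z1) ∧ F1'.length = e + 1 ∧
          fl e F1' = (fl (e + 1) F1).insertIdx r1 (e + 1) := by
  intro j
  induction j with
  | zero =>
    intro F Z _ hl _ h
    obtain ⟨rfl, rfl⟩ := append_inj h (hl.trans hl1.symm)
    exact ⟨r1, hr1, fun F' _ hl' hf => ⟨F', Reach.rfl' _, hl', hf⟩⟩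
  | succ j ih =>
    intro F Z hP hl hc h
    have hF1 : 1 ∉ F := one_front hP ⟨_, h⟩ (hl.trans hl1.symm) h1
    have hZ1 : 1 ∈ Z := by
      have := (hP.mem 1).2 ⟨le_rfl, by have := hP.len; simp at this; omega⟩
      simpa [hF1] using this
    rw [Function.iterate_succ_apply] at h
    cases F with
    | nil => simp at hl
    | cons k F =>
      simp only [length_cons] at hl
      have hS := hP.step
      by_cases hk : k ≤ e + 1
      · rw [step_small _ _ _ (by omega)] at h hS
        obtain ⟨r, hr, H⟩ := ih _ Z hS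
          (by rw [length_insertIdx_of_le_length (by omega)]; exact hl)
          ((perm_insertIdx k F (by omega)).symm.subset hc) h
        rw [fl_ins hk] at hr H
        rw [fl_neg hk]
        exact ⟨r, hr, H⟩
      · obtain ⟨z, Z, rfl⟩ : ∃ z Z', Z = z :: Z' := by
          cases Z with
          | nil => simp at hZ1
          | cons z Z => exact ⟨z, Z, rfl⟩
        have hc' : e + 1 ∈ F := by
          rcases mem_cons.1 hc with h | h
          · omega
          · exact h
        have hz : z ≠ e + 1 := fun hz =>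
          (nodup_append.1 hP.nodup).2.2 _ hc z (by simp) hz.symm
        have hfz : fl e [z] = fl (e + 1) [z] := by
          by_cases h : e + 1 < z
          · rw [fl_pos h, fl_pos (by omega)]; rfl
          · rw [fl_neg (by omega), fl_neg (by omega)]; rfl
        rw [cons_append, step_big _ _ _ _ (by omega)] at h hS
        obtain ⟨r, hr, H⟩ := ih (F ++ [z]) _ hS (by simpa using hl) (by simp [hc']) h
        rw [fl_append] at hr H
        rw [fl_pos (by omega)]
        by_cases hr' : r ≤ (fl (e + 1) F).length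
        · refine ⟨r + 1, by simpa using hr', fun F' hP' hl' hf => ?_⟩
          have hF1' : 1 ∉ F' := fun h => (nodup_append.1 hP'.nodup).2.2 1 h 1 hZ1 rfl
          rw [insertIdx_succ_cons] at hf
          obtain ⟨A, hA, hlA, hfA, -⟩ := advm n e he F' _ hP' hl' hF1' _ _ hf
          have e' := step_big k z A Z (by omega)
          have hS' := (hP'.reach hA).step
          have hFA : A.length = F.length := by omega
          rw [hFA] at e'
          rw [e'] at hS'
          obtain ⟨F1', h2, h3⟩ := H (A ++ [z]) hS' (by simpa using hlA)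
            (by rw [fl_append, hfA, hfz, ins_left _ _ _ _ hr'])
          exact ⟨F1', hA.trans' ((Reach.one e').trans' h2), h3⟩
        · have hz' : e + 1 < z := by
            by_contra hh
            rw [fl_neg (by omega), fl_nil, append_nil] at hr
            exact hr' hr
          have hz1 : fl (e + 1) [z] = [z] := by rw [fl_pos hz']; rfl
          rw [hz1] at hr H hfz
          have hre : r = (fl (e + 1) F ++ [z]).length := by
            simp only [length_append, length_singleton] at hr ⊢; omega
          refine ⟨1, by simp, fun F' hP' hl' hf => ?_⟩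
          have hF1' : 1 ∉ F' := fun h => (nodup_append.1 hP'.nodup).2.2 1 h 1 hZ1 rfl
          rw [insertIdx_succ_cons, insertIdx_zero] at hf
          obtain ⟨A, hA, hlA, hfA, hA1⟩ := advm n e he F' _ hP' hl' hF1' _ _ hf
          have e' := step_big k z A Z (by omega)
          have hS' := (hP'.reach hA).step
          have hFA : A.length = F.length := by omega
          rw [hFA] at e'
          rw [e'] at hS'
          obtain ⟨A2, hA2, hlA2, hfA2, -⟩ := advm n e he (A ++ [z]) _ hS' (by simpa using hlA)
            (by simp [hA1]; omega) (e + 1) (fl (e + 1) F ++ [z])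
            (by rw [fl_append, hfA, hfz]; rfl)
          have e2 := step_mid (e + 1) A2 (Z.insertIdx (k - 2 - F.length) k) (by omega)
          have hS2 := (hS'.reach hA2).step
          rw [e2] at hS2
          obtain ⟨F1', h2, h3⟩ := H (A2 ++ [e + 1]) (by simpa using hS2) (by simpa using hlA2)
            (by rw [fl_append, hfA2, hre, insertIdx_length_self, fl_pos (Nat.lt_succ_self e)]; rfl)
          refine ⟨F1', hA.trans' ((Reach.one e').trans' (hA2.trans' ((Reach.one e2).trans' ?_))), h3⟩
          simpa using h2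

lemma bad (n e : ℕ) (he : 1 ≤ e) (F Z : List ℕ) (hP : P n (F ++ 1 :: Z)) (hl : F.length = e + 1)
    (k : ℕ) (W : List ℕ) (hf : fl e F = k :: (e + 1) :: W) (hk : e + 1 < k) :
    ∃ A R, Reach (F ++ 1 :: Z) (A ++ 1 :: R) ∧ A.length + 1 = e ∧ e + 1 ∈ R := by
  have hF1 : 1 ∉ F := fun h => (nodup_append.1 hP.nodup).2.2 1 h 1 (by simp) rfl
  obtain ⟨A, hA, hlA, hfA, hA1⟩ := advm n e he F _ hP hl hF1 _ _ hf
  have e' := step_big k 1 A Z (by omega)
  have hS := (hP.reach hA).step
  rw [e'] at hS
  have hS' : P n (A ++ 1 :: Z.insertIdx (k - 2 - A.length) k) := by simpa using hS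
  obtain ⟨y, A', hr, hy, hp, hf'⟩ := adv e he A (1 :: Z.insertIdx (k - 2 - A.length) k) hlA
    (Nodup.of_append_left hS'.nodup) (two_le hS' hA1)
  rw [hfA, fl_pos hy] at hf'
  obtain ⟨rfl, -⟩ := cons.inj hf'
  have hlA' : A'.length + 1 = e := by simpa [hlA] using hp.length_eq
  have e2 := step_mid (e + 1) (A' ++ [1]) (Z.insertIdx (k - 2 - A.length) k) (by simp; omega)
  refine ⟨A', (e + 1) :: Z.insertIdx (k - 2 - A.length) k, ?_, hlA', by simp⟩
  refine hA.trans' ((Reach.one e').trans' ?_)
  have h3 : Reach (A ++ [1] ++ Z.insertIdx (k - 2 - A.length) k)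
      ((e + 1) :: (A' ++ [1] ++ Z.insertIdx (k - 2 - A.length) k)) := by simpa using hr
  refine h3.trans' (Reach.one ?_)
  rw [e2]; simp

lemma pair_sub (k : ℕ) (C : List ℕ) : ∀ i, i < C.length → ∃ x ∈ C, [k, x] <+ C.insertIdx i k := by
  induction C with
  | nil => intro i hi; simp at hi
  | cons y C ih =>
    intro i hi
    cases i with
    | zero => exact ⟨y, by simp, by simp⟩
    | succ i =>
      obtain ⟨x, hx, h⟩ := ih i (by simpa using hi)
      exact ⟨x, by simp [hx], by rw [insertIdx_succ_cons]; exact h.cons _⟩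

lemma rg_one {n : ℕ} (hn : 1 ≤ n) : range' 1 n = [] ++ 1 :: range' 2 (n - 1) := by
  obtain ⟨m, rfl⟩ : ∃ m, n = m + 1 := ⟨n - 1, by omega⟩
  simp [range'_succ]

lemma sorted_right {n : ℕ} {A R : List ℕ} (hP : P n (A ++ 1 :: R))
    (h : Reach (A ++ 1 :: R) (range' 1 n)) : R.Pairwise (· < ·) := by
  have hn : 1 ≤ n := ((hP.mem 1).1 (by simp)).2
  rw [rg_one hn] at h
  exact Pairwise.sublist (sub' hP h) pairwise_lt_range'

lemma good (n q0 : ℕ) (C : List ℕ) (h0 : C.length + 1 ≤ q0) (hC : ∀ x ∈ C, x + C.length ≤ q0)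
    (q' : ℕ) (hq' : q0 ≤ q') :
    ∀ (j : ℕ) (F : List ℕ) (q : ℕ), F.length + C.length + 1 = q → q ≤ n → q' ≤ q →
      P n (F ++ 1 :: (C ++ range' (q + 1) (n - q))) →
      step^[j] (F ++ 1 :: (C ++ range' (q + 1) (n - q))) = range' 1 n →
      ∃ A, Reach (F ++ 1 :: (C ++ range' (q + 1) (n - q)))
        (A ++ 1 :: (C ++ range' (q' + 1) (n - q'))) ∧ A.length + C.length + 1 = q' := by
  intro j
  induction j with
  | zero =>
    intro F q hl hq hqq hP h
    rcases hqq.eq_or_lt with rfl | hlt
    · exact ⟨F, Reach.rfl' _, hl⟩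
    rw [rg_one (show 1 ≤ n by omega)] at h
    have := (uniq hP.nodup h).1
    subst this
    simp at hl; omega
  | succ j ih =>
    intro F q hl hq hqq hP h
    rcases hqq.eq_or_lt with rfl | hlt
    · exact ⟨F, Reach.rfl' _, hl⟩
    rw [Function.iterate_succ_apply] at h
    cases F with
    | nil => simp at hl; omega
    | cons k F =>
      simp only [length_cons] at hl
      have hS := hP.step
      by_cases hk : k ≤ F.length + 1
      · have e' := step_small k F (1 :: (C ++ range' (q + 1) (n - q))) hk
        rw [e'] at h hS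
        obtain ⟨A, hA, hlA⟩ := ih _ q
          (by rw [length_insertIdx_of_le_length (by omega)]; exact hl) hq hqq hS h
        exact ⟨A, (Reach.one e').trans' hA, hlA⟩
      · have e' := step_big k 1 F (C ++ range' (q + 1) (n - q)) (by omega)
        rw [append_assoc, singleton_append, ← cons_append] at e'
        rw [e'] at h hS
        have hkq : k ≤ q := by
          by_contra hh
          have hk1 := (hP.mem k).1 (by simp)
          have hk2 : k ∈ range' (q + 1) (n - q) := by rw [mem_range'_1]; omega
          exact (nodup_append.1 hP.nodup).2.2 k (by simp) k (by simp [hk2]) rfl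
        rcases hkq.eq_or_lt with rfl | hkq
        · have e2 : (C ++ range' (k + 1) (n - k)).insertIdx (k - 2 - F.length) k =
              C ++ range' (k - 1 + 1) (n - (k - 1)) := by
            have a1 : k - 2 - F.length = C.length + 0 := by omega
            have a2 : n - (k - 1) = (n - k) + 1 := by omega
            have a3 : k - 1 + 1 = k := by omega
            rw [a1, ins_right, a2, a3, range'_succ, insertIdx_zero]
          rw [e2] at h hS e'
          obtain ⟨A, hA, hlA⟩ := ih F (k - 1) (by omega) (by omega) (by omega) hS h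
          exact ⟨A, (Reach.one e').trans' hA, hlA⟩
        · exfalso
          have hs := sorted_right hS ⟨j, h⟩
          obtain ⟨x, hx, hsub⟩ := pair_sub k C (k - 2 - F.length) (by omega)
          rw [ins_left _ _ _ _ (by omega)] at hs
          have := Pairwise.sublist (hsub.trans (sublist_append_left _ _)) hs
          simp at this
          have := hC x hx
          omega

lemma low (n : ℕ) : ∀ (r : ℕ) (F : List ℕ), F.length = r → r + 1 ≤ n →
    P n (F ++ 1 :: range' (r + 2) (n - (r + 1))) →
    Reach (F ++ 1 :: range' (r + 2) (n - (r + 1))) (range' 1 n) := by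
  intro r
  induction r with
  | zero =>
    intro F hl hn _
    obtain rfl := length_eq_zero_iff.1 hl
    rw [rg_one (show 1 ≤ n by omega)]
    exact Reach.rfl' _
  | succ r ih =>
    intro F hl hn hP
    have hF1 : 1 ∉ F := fun h => (nodup_append.1 hP.nodup).2.2 1 h 1 (by simp) rfl
    obtain ⟨y, A', hr, hy, hp, -⟩ := adv (r + 1) (by omega) F
      (1 :: range' (r + 1 + 2) (n - (r + 1 + 1))) hl (Nodup.of_append_left hP.nodup)
      (two_le hP hF1)
    have hyF : y ∈ F := hp.subset (by simp)
    have hy2 : y = r + 2 := by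
      by_contra hh
      have hk1 := (hP.mem y).1 (by simp [hyF])
      have hk2 : y ∈ range' (r + 1 + 2) (n - (r + 1 + 1)) := by rw [mem_range'_1]; omega
      exact (nodup_append.1 hP.nodup).2.2 y hyF y (by simp [hk2]) rfl
    subst hy2
    have hlA : A'.length = r := by simpa [hl] using hp.length_eq
    have e2 := step_mid (r + 2) (A' ++ [1]) (range' (r + 1 + 2) (n - (r + 1 + 1))) (by simp; omega)
    have a2 : n - (r + 1) = (n - (r + 1 + 1)) + 1 := by omega
    have e3 : step ((r + 2) :: (A' ++ 1 :: range' (r + 1 + 2) (n - (r + 1 + 1)))) =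
        A' ++ 1 :: range' (r + 2) (n - (r + 1)) := by
      rw [a2, range'_succ]
      simpa using e2
    have hS := (hP.reach hr).step
    rw [e3] at hS
    exact hr.trans' ((Reach.one e3).trans' (ih A' hlA (by omega) hS))

end Pool.Agent.H.MP_79f629_co
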