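import Pool.Agent.H.MP_79f629_co.B

namespace Pool.Agent.H.MP_79f629_co
open List

def sk (e : ℕ) (s : List ℕ) : List (Option ℕ) := s.map (fun x => if e < x then none else some x)

lemma sk_det (e : ℕ) : ∀ s t : List ℕ, sk e s = sk e t → fl e s = fl e t → s = t := by
  intro s
  induction s with
  | nil => intro t h _; cases t with
    | nil => rfl
    | cons y t => simp [sk] at h
  | cons x s ih =>
    intro t h hf
    cases t with
    | nil => simp [sk] at h
    | cons y t =>
      simp only [sk, map_cons, cons.injEq] at h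
      obtain ⟨h1, h2⟩ := h
      by_cases hx : e < x <;> by_cases hy : e < y
      · rw [fl_pos hx, fl_pos hy] at hf
        obtain ⟨rfl, hf2⟩ := cons.inj hf
        rw [ih t h2 hf2]
      · simp [hx, hy] at h1
      · simp [hx, hy] at h1
      · rw [fl_neg (by omega), fl_neg (by omega)] at hf
        simp [hx, hy] at h1
        rw [h1, ih t h2 hf]

lemma sk_small (e : ℕ) : ∀ s t : List ℕ, sk e s = sk e t → (∀ x ∈ s, x ≤ e) → s = t := by
  intro s
  induction s with
  | nil => intro t h _; cases t with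
    | nil => rfl
    | cons y t => simp [sk] at h
  | cons x s ih =>
    intro t h hs
    cases t with
    | nil => simp [sk] at h
    | cons y t =>
      simp only [sk, map_cons, cons.injEq] at h
      obtain ⟨h1, h2⟩ := h
      have hx : ¬ e < x := by have := hs x (by simp); omega
      by_cases hy : e < y
      · simp [hx, hy] at h1
      · simp [hx, hy] at h1
        rw [h1, ih t h2 (fun z hz => hs z (by simp [hz]))]

lemma refill (e : ℕ) : ∀ (s W : List ℕ), W.length = (fl e s).length → (∀ w ∈ W, e < w) →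
    ∃ t, sk e t = sk e s ∧ fl e t = W ∧ t ++ fl e s ~ s ++ W := by
  intro s
  induction s with
  | nil =>
    intro W hl _
    obtain rfl : W = [] := by simpa [fl] using hl
    exact ⟨[], rfl, rfl, Perm.refl _⟩
  | cons x s ih =>
    intro W hl hW
    by_cases hx : e < x
    · rw [fl_pos hx] at hl ⊢
      cases W with
      | nil => simp at hl
      | cons w W =>
        obtain ⟨t, h1, h2, h3⟩ := ih W (by simpa using hl) (fun z hz => hW z (by simp [hz]))
        have hw := hW w (by simp)
        refine ⟨w :: t, ?_, by rw [fl_pos hw, h2], ?_⟩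
        · simp only [sk, map_cons, hx, hw, if_true] at h1 ⊢
          rw [h1]
        · simp only [cons_append]
          exact ((perm_middle.cons _).trans (Perm.swap _ _ _)).trans
            (((h3.cons _).trans perm_middle.symm).cons _)
    · rw [fl_neg (by omega)] at hl ⊢
      obtain ⟨t, h1, h2, h3⟩ := ih W hl hW
      refine ⟨x :: t, ?_, by rw [fl_neg (by omega), h2], h3.cons _⟩
      simp only [sk, map_cons] at h1 ⊢
      rw [h1]

lemma mem_fl {a x : ℕ} {s : List ℕ} : x ∈ fl a s ↔ x ∈ s ∧ a < x := by simp [fl]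

lemma fl_self {a : ℕ} {s : List ℕ} (h : ∀ x ∈ s, a < x) : fl a s = s := by
  unfold fl; rw [filter_eq_self]; simpa using h

lemma fl_none {a : ℕ} {s : List ℕ} (h : ∀ x ∈ s, x ≤ a) : fl a s = [] := by
  unfold fl; rw [filter_eq_nil_iff]; simpa using h

lemma fl_take {b c a : ℕ} {s : List ℕ} (h : ∀ x ∈ s.drop b, x < b) (hc : b ≤ c) (ha : b ≤ a + 1) :
    fl a (s.take c) = fl a s := by
  conv_rhs => rw [← take_append_drop c s, fl_append]
  rw [fl_none (s := s.drop c), append_nil]
  intro x hx
  have : x ∈ s.drop b := (drop_sublist_drop_left s hc).subset hx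
  have := h x this
  omega

lemma fl_split {e : ℕ} {s : List ℕ} (hn : s.Nodup) (hc : e + 1 ∈ s) :
    ∃ r, r ≤ (fl (e + 1) s).length ∧ fl e s = (fl (e + 1) s).insertIdx r (e + 1) := by
  obtain ⟨X, Y, rfl⟩ := append_of_mem hc
  have key : ∀ Z : List ℕ, e + 1 ∉ Z → fl (e + 1) Z = fl e Z := by
    intro Z hZ
    unfold fl
    apply filter_congr
    intro x hx
    have : x ≠ e + 1 := fun h => hZ (h ▸ hx)
    simp; omega
  have h1 : e + 1 ∉ X := fun h => (nodup_append.1 hn).2.2 _ h _ (by simp) rfl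
  have h2 : e + 1 ∉ Y := (nodup_cons.1 (nodup_append.1 hn).2.1).1
  refine ⟨(fl e X).length + 0, ?_, ?_⟩
  · rw [fl_append, key X h1]; simp
  · rw [fl_append, fl_append, fl_neg le_rfl, key X h1, key Y h2, ins_right,
      fl_pos (Nat.lt_succ_self e), insertIdx_zero]

lemma fl_len {n c : ℕ} {s : List ℕ} (hP : P n s) : (fl c s).length ≤ n - c := by
  have h1 : (fl c s).Nodup := hP.nodup.filter _
  have h2 : fl c s ⊆ range' (c + 1) (n - c) := by
    intro x hx
    rw [mem_fl, hP.mem] at hx
    rw [mem_range'_1]; omega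
  simpa using (h1.subperm h2).length_le

def HH (n m q : ℕ) (s : List ℕ) : Prop :=
  ∃ A, Reach s (A ++ 1 :: (s.drop (n - m) ++ range' (q + 1) (n - q))) ∧ A.length + m + 1 = q

def Gd (n m b i : ℕ) (s : List ℕ) : Prop :=
  P n s ∧ s[n - m - 1]? = some 1 ∧ (∀ x ∈ s.drop b, x < b) ∧ ∀ i' ≤ i, HH n m (n - 2 * i') s

lemma drop_eq {b c : ℕ} {s t : List ℕ} (h : s.drop b = t.drop b) (hc : b ≤ c) :
    s.drop c = t.drop c := by
  obtain ⟨d, rfl⟩ := Nat.exists_eq_add_of_le hc
  rw [← drop_drop, ← drop_drop, h]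

lemma closed {n m b i e : ℕ} (hb : 2 ≤ b) (he : e + 1 + m + 1 + 2 * i = n) (hbe : b ≤ e + 1)
    {s t : List ℕ} (hs : Gd n m b i s) (ht : P n t) (h1 : sk e s = sk e t)
    (h2 : fl (e + 1) s = fl (e + 1) t) : Gd n m b i t ∧ s.drop b = t.drop b := by
  obtain ⟨hP, hone, hsm, hH⟩ := hs
  have hd : s.drop b = t.drop b := by
    apply sk_small e
    · unfold sk at h1 ⊢
      rw [map_drop, map_drop, h1]
    · intro x hx; have := hsm x hx; omega
  refine ⟨⟨ht, ?_, by rw [← hd]; exact hsm, ?_⟩, hd⟩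
  · have a : n - m - 1 = b + (n - m - 1 - b) := by omega
    rw [a, ← getElem?_drop] at hone ⊢
    rw [← hd]; exact hone
  · intro i' hi'
    obtain ⟨A, ⟨j, hj⟩, hl⟩ := hH i' hi'
    have hc : b ≤ A.length := by omega
    have hd' := drop_eq hd hc
    obtain ⟨F1, h3, h4⟩ := det n A.length (by omega) A
      (1 :: (s.drop (n - m) ++ range' (n - 2 * i' + 1) (n - (n - 2 * i')))) rfl (by simp) j (s.take A.length)
      (s.drop A.length) (t.take A.length) (by rw [take_append_drop]; exact hP)
      (by rw [hd', take_append_drop]; exact ht) (by rw [length_take, hP.len]; omega)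
      (by rw [length_take, ht.len]; omega)
      (by rw [fl_take hsm hc (by omega), fl_take (by rw [← hd]; exact hsm) hc (by omega)]
          exact fl_mono (by omega) h2)
      (by rw [take_append_drop]; exact hj)
    rw [hd', take_append_drop, drop_eq hd (show b ≤ n - m by omega)] at h3
    exact ⟨F1, h3, by omega⟩

lemma exists_bad {n m b i e : ℕ} (hb : 2 ≤ b) (hm : 1 ≤ m) (he : e + 1 + m + 1 + 2 * i = n)
    (hbe : b ≤ e + 1) {s : List ℕ} (hs : Gd n m b i s) :
    ∃ t, Gd n m b i t ∧ ¬ Gd n m b (i + 1) t ∧ sk e s = sk e t ∧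
      fl (e + 1) s = fl (e + 1) t := by
  obtain ⟨hP, hone, hsm, hH⟩ := id hs
  obtain ⟨F1, ⟨j, hj⟩, hl⟩ := hH i le_rfl
  have hl1 : F1.length = e + 1 := by omega
  have hP1 := hP.reach ⟨j, hj⟩
  have hF1 : 1 ∉ F1 := fun h => (nodup_append.1 hP1.nodup).2.2 1 h 1 (by simp) rfl
  obtain ⟨k, A0, -, hk, -, hf⟩ := adv (e + 1) (by omega) F1 [] hl1
    (Nodup.of_append_left hP1.nodup) (two_le hP1 hF1)
  rw [fl_pos hk] at hf
  have hcs : e + 1 ∈ s := (hP.mem _).2 ⟨by omega, by omega⟩
  have hc : e + 1 ∈ s.take (e + 1) := by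
    have := (mem_fl (a := e)).2 ⟨hcs, Nat.lt_succ_self e⟩
    rw [← fl_take hsm hbe hbe] at this
    exact (mem_fl.1 this).1
  obtain ⟨r, hr, H0⟩ := mark n e (by omega) F1
    (1 :: (s.drop (n - m) ++ range' (n - 2 * i + 1) (n - (n - 2 * i)))) hl1 (by simp) 1
    (by rw [← hf]; simp) j
    (s.take (e + 1)) (s.drop (e + 1)) (by rw [take_append_drop]; exact hP)
    (by rw [length_take, hP.len]; omega) hc (by rw [take_append_drop]; exact hj)
  rw [fl_take hsm hbe (by omega)] at hr H0
  obtain ⟨r0, hr0, h0⟩ := fl_split hP.nodup hcs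
  have hWp : (fl (e + 1) s).insertIdx r (e + 1) ~ fl e s := by
    rw [h0]
    exact (perm_insertIdx _ _ hr).trans (perm_insertIdx _ _ hr0).symm
  obtain ⟨t, t1, t2, t3⟩ := refill e s ((fl (e + 1) s).insertIdx r (e + 1)) hWp.length_eq
    (fun w hw => (mem_fl.1 (hWp.subset hw)).2)
  have htP : P n t := by
    have : t ++ fl e s ~ s ++ fl e s := t3.trans (hWp.append_left _)
    exact ((perm_append_right_iff _).1 this).trans hP
  have t4 : fl (e + 1) s = fl (e + 1) t := by
    rw [← fl_fl (Nat.le_succ e) t, t2, fl_ins le_rfl, fl_fl le_rfl]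
  obtain ⟨hG, hd⟩ := closed hb he hbe hs htP t1.symm t4
  refine ⟨t, hG, ?_, t1.symm, t4⟩
  rintro ⟨-, -, hsm', hH'⟩
  have hd' := drop_eq hd hbe
  obtain ⟨F1', h3, h4, h5⟩ := H0 (t.take (e + 1)) (by rw [hd', take_append_drop]; exact htP)
    (by rw [length_take, htP.len]; omega) (by rw [fl_take hsm' hbe hbe, t2])
  rw [hd', take_append_drop] at h3
  rw [← hf, insertIdx_succ_cons, insertIdx_zero] at h5
  obtain ⟨A, R, h6, h7, h8⟩ := bad n e (by omega) F1' _ (htP.reach h3) h4 _ _ h5 hk
  obtain ⟨A2, h9, h10⟩ := hH' (i + 1) le_rfl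
  have h11 := h3.trans' h6
  have p1 := htP.reach h11
  have p2 := htP.reach h9
  have l1 := p1.len
  have l2 := p2.len
  have hR : R = t.drop (n - m) ++ range' (n - 2 * (i + 1) + 1) (n - (n - 2 * (i + 1))) := by
    simp only [length_append, length_cons] at l1 l2
    rcases h11.total h9 with h | h
    · exact (sub' p1 h).eq_of_length (by simp only [length_append]; omega)
    · exact ((sub' p2 h).eq_of_length (by simp only [length_append]; omega)).symm
  rw [hR, mem_append, mem_range'_1] at h8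
  rcases h8 with h8 | h8
  · have := hsm' _ ((drop_sublist_drop_left t (show b ≤ n - m by omega)).subset h8)
    omega
  · omega

end Pool.Agent.H.MP_79f629_co
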