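import Pool.Agent.H.MP_79f629_co.C

namespace Pool.Agent.H.MP_79f629_co
open List
open scoped Classical

def Sp (L : List ℕ) : Finset (List ℕ) := L.permutations.toFinset

lemma mem_Sp {L s : List ℕ} : s ∈ Sp L ↔ s ~ L := by simp [Sp]

lemma card_Sp_le (L : List ℕ) : (Sp L).card ≤ L.length.factorial := by
  rw [← length_permutations]; exact toFinset_card_le _

lemma card_Sp {L : List ℕ} (h : L.Nodup) : (Sp L).card = L.length.factorial := by
  rw [← length_permutations]; exact toFinset_card_of_nodup (nodup_permutations _ h)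

lemma erase_perm {L s : List ℕ} {x y : ℕ} (hs : s ~ L) (h : s[x]? = some y) :
    s.eraseIdx x ~ L.erase y := by
  obtain ⟨hx, rfl⟩ := List.getElem?_eq_some_iff.1 h
  have := ((getElem_cons_eraseIdx_perm hx).trans hs).erase s[x]
  simpa using this

lemma erase_inj {s t : List ℕ} {x y : ℕ} (h : s[x]? = some y) (h' : t[x]? = some y)
    (e : s.eraseIdx x = t.eraseIdx x) : s = t := by
  obtain ⟨hx, h1⟩ := List.getElem?_eq_some_iff.1 h
  obtain ⟨hx', h2⟩ := List.getElem?_eq_some_iff.1 h'
  rw [← insertIdx_eraseIdx_getElem hx, ← insertIdx_eraseIdx_getElem hx', h1, h2, e]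

lemma cnt1 (L : List ℕ) (x y : ℕ) :
    ((Sp L).filter (fun s => s[x]? = some y)).card ≤ (L.length - 1).factorial := by
  by_cases hy : y ∈ L
  · rw [← length_erase_of_mem hy]
    refine le_trans ?_ (card_Sp_le _)
    refine Finset.card_le_card_of_injOn (fun s => s.eraseIdx x) ?_ ?_
    · intro s hs
      simp only [Finset.coe_filter, mem_Sp, Set.mem_ofPred_eq] at hs
      exact Finset.mem_coe.2 (mem_Sp.2 (erase_perm hs.1 hs.2))
    · intro s hs t ht e
      simp only [Finset.coe_filter, mem_Sp, Set.mem_ofPred_eq] at hs ht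
      exact erase_inj hs.2 ht.2 e
  · rw [Finset.filter_eq_empty_iff.2]
    · simp
    · intro s hs h
      exact hy ((mem_Sp.1 hs).subset (mem_of_getElem? h))

lemma cnt2 (L : List ℕ) (a u x y : ℕ) (hu : u ∈ L) (huy : u ≠ y) :
    ((Sp L).filter (fun s => s[a]? = some u ∧ s[x]? = some y)).card ≤
      (L.length - 2).factorial := by
  have := cnt1 (L.erase u) (if x < a then x else x - 1) y
  rw [length_erase_of_mem hu, Nat.sub_sub] at this
  refine le_trans ?_ this
  refine Finset.card_le_card_of_injOn (fun s => s.eraseIdx a) ?_ ?_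
  · intro s hs
    simp only [Finset.coe_filter, mem_Sp, Set.mem_ofPred_eq] at hs ⊢
    refine ⟨erase_perm hs.1 hs.2.1, ?_⟩
    have hxa : x ≠ a := by
      rintro rfl
      exact huy (Option.some.inj (hs.2.1.symm.trans hs.2.2))
    rw [getElem?_eraseIdx]
    by_cases h : x < a
    · simp [h, hs.2.2]
    · have h1 : ¬ (x - 1 < a) := by omega
      have h2 : x - 1 + 1 = x := by omega
      simp [h, h1, h2, hs.2.2]
  · intro s hs t ht e
    simp only [Finset.coe_filter, mem_Sp, Set.mem_ofPred_eq] at hs ht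
    exact erase_inj hs.2.1 ht.2.1 e

noncomputable def Aset (n m : ℕ) : Finset (List ℕ) :=
  (Sp (range' 1 n)).filter (fun s => s[n - m - 1]? = some 1)

noncomputable def Tset (n m : ℕ) : Finset (List ℕ) :=
  (Sp (range' 1 n)).filter (fun s => m < n ∧ s[n - m - 1]? = some 1 ∧ Reach s (range' 1 n))

lemma card_A (n m : ℕ) : (Aset n m).card ≤ (n - 1).factorial := by
  simpa [Aset] using cnt1 (range' 1 n) (n - m - 1) 1

lemma split_at {s : List ℕ} {x y : ℕ} (h : s[x]? = some y) :
    s = s.take x ++ y :: s.drop (x + 1) := by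
  obtain ⟨hx, rfl⟩ := List.getElem?_eq_some_iff.1 h
  rw [← drop_eq_getElem_cons hx, take_append_drop]

lemma T_sorted {n m : ℕ} {s : List ℕ} (h : s ∈ Tset n m) : (s.drop (n - m)).Pairwise (· < ·) := by
  simp only [Tset, Finset.mem_filter, mem_Sp] at h
  obtain ⟨hP, hm, h1, hr⟩ := h
  have e := split_at h1
  rw [show n - m - 1 + 1 = n - m by omega] at e
  rw [e] at hP hr
  exact sorted_right hP hr

lemma T_fact (n m : ℕ) : (Tset n m).card * m.factorial ≤ (n - 1).factorial := by
  have := Finset.card_mul_le_card_mul (fun s t : List ℕ => s.take (n - m) = t.take (n - m))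
    (s := Tset n m) (t := Aset n m) (m := m.factorial) (n := 1) ?_ ?_
  · have := card_A n m
    omega
  · intro s hs
    simp only [Tset, Finset.mem_filter, mem_Sp] at hs
    obtain ⟨hP, hm, h1, -⟩ := hs
    have hP' : P n s := hP
    have hl : (s.drop (n - m)).length = m := by rw [length_drop, hP'.len]; omega
    have hlt : (s.take (n - m)).length = n - m := by rw [length_take, hP'.len]; omega
    have hc := card_Sp (L := s.drop (n - m)) (hP'.nodup.sublist (drop_sublist _ _))
    rw [hl] at hc
    rw [← hc]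
    refine Finset.card_le_card_of_injOn (fun w => s.take (n - m) ++ w) ?_ ?_
    · intro w hw
      have hw' := mem_Sp.1 (Finset.mem_coe.1 hw)
      simp only [Finset.mem_coe, Finset.mem_bipartiteAbove, Aset, Finset.mem_filter, mem_Sp]
      refine ⟨⟨?_, ?_⟩, ?_⟩
      · refine Perm.trans ?_ hP
        conv_rhs => rw [← take_append_drop (n - m) s]
        exact hw'.append_left _
      · rw [getElem?_append_left (by omega), getElem?_take_of_lt (by omega)]; exact h1
      · rw [take_left' hlt]
    · intro w _ w' _ e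
      exact append_cancel_left e
  · intro t _
    rw [Finset.card_le_one]
    intro s hs s' hs'
    rw [Finset.mem_bipartiteBelow] at hs hs'
    have e : s.take (n - m) = s'.take (n - m) := hs.2.trans hs'.2.symm
    have p1 := T_sorted hs.1
    have p2 := T_sorted hs'.1
    have q1 := hs.1
    have q2 := hs'.1
    simp only [Tset, Finset.mem_filter, mem_Sp] at q1 q2
    have hp : s ~ s' := q1.1.trans q2.1.symm
    rw [← take_append_drop (n - m) s, ← take_append_drop (n - m) s', e] at hp ⊢
    rw [Perm.eq_of_pairwise (fun a b _ _ h h' => by omega) p1 p2 ((perm_append_left_iff _).1 hp)]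

lemma T_zero {n : ℕ} (hn : 1 ≤ n) : (Tset n 0).card = (n - 1).factorial := by
  apply le_antisymm (by simpa using T_fact n 0)
  have hc := card_Sp (L := range' 2 (n - 1)) nodup_range'
  rw [length_range'] at hc
  rw [← hc]
  refine Finset.card_le_card_of_injOn (fun w => w ++ [1]) ?_ ?_
  · intro w hw
    have hw' := mem_Sp.1 (Finset.mem_coe.1 hw)
    have hl : w.length = n - 1 := by simpa using hw'.length_eq
    have hP : P n (w ++ [1]) := by
      unfold P
      rw [rg_one hn]
      exact perm_append_comm.trans (by simpa using hw')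
    simp only [Finset.mem_coe, Tset, Finset.mem_filter, mem_Sp]
    refine ⟨hP, by omega, ?_, ?_⟩
    · rw [getElem?_append_right (by omega)]
      simp [hl]
    · have := low n (n - 1) w hl (by omega)
      rw [show n - (n - 1 + 1) = 0 by omega] at this
      exact this hP
  · intro w _ w' _ e
    exact append_cancel_right e

noncomputable def Gset (n m b i : ℕ) : Finset (List ℕ) := (Sp (range' 1 n)).filter (Gd n m b i)

lemma mem_G {n m b i : ℕ} {s : List ℕ} : s ∈ Gset n m b i ↔ Gd n m b i s := by
  simp only [Gset, Finset.mem_filter, mem_Sp]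
  exact ⟨fun h => h.2, fun h => ⟨h.1, h⟩⟩

lemma G_step {n m b i : ℕ} (hb : 2 ≤ b) (hm : 1 ≤ m) (hi : b + m + 1 + 2 * i ≤ n) :
    (Gset n m b (i + 1)).card * (2 * i + m + 2) + (Gset n m b i).card ≤
      (Gset n m b i).card * (2 * i + m + 2) := by
  obtain ⟨e, he⟩ : ∃ e, e + 1 + m + 1 + 2 * i = n := ⟨n - (m + 2 + 2 * i), by omega⟩
  have hsub : Gset n m b (i + 1) ⊆ Gset n m b i := by
    intro s hs
    rw [mem_G] at hs ⊢
    exact ⟨hs.1, hs.2.1, hs.2.2.1, fun i' hi' => hs.2.2.2 i' (by omega)⟩
  have := Finset.card_mul_le_card_mul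
    (fun s t : List ℕ => sk e s = sk e t ∧ fl (e + 1) s = fl (e + 1) t)
    (s := Gset n m b i) (t := Gset n m b i \ Gset n m b (i + 1)) (m := 1) (n := 2 * i + m + 2) ?_ ?_
  · have h2 := Finset.card_sdiff_add_card_eq_card hsub
    rw [← h2] at this ⊢
    nlinarith
  · intro s hs
    obtain ⟨t, t1, t2, t3⟩ := exists_bad hb hm he (by omega) (mem_G.1 hs)
    refine Finset.card_pos.2 ⟨t, ?_⟩
    rw [Finset.mem_bipartiteAbove, Finset.mem_sdiff, mem_G, mem_G]
    exact ⟨⟨t1, t2⟩, t3⟩
  · intro t ht
    have hc : ((Finset.range (2 * i + m + 2)).image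
        (fun r => (fl (e + 1) t).insertIdx r (e + 1))).card ≤ 2 * i + m + 2 :=
      Finset.card_image_le.trans (by simp)
    refine le_trans ?_ hc
    refine Finset.card_le_card_of_injOn (fun s => fl e s) ?_ ?_
    · intro s hs
      rw [Finset.mem_coe, Finset.mem_bipartiteBelow, mem_G] at hs
      have hP := hs.1.1
      obtain ⟨r, hr, h⟩ := fl_split (e := e) hP.nodup ((hP.mem _).2 ⟨by omega, by omega⟩)
      have := fl_len (c := e + 1) hP
      simp only [Finset.coe_image, Set.mem_image, Finset.mem_coe, Finset.mem_range]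
      exact ⟨r, by omega, by rw [h, hs.2.2]⟩
    · intro s hs s' hs' h
      rw [Finset.mem_coe, Finset.mem_bipartiteBelow] at hs hs'
      exact sk_det e s s' (hs.2.1.trans hs'.2.1.symm) h

lemma G_bound {n m b : ℕ} (hb : 2 ≤ b) (hm : 1 ≤ m) : ∀ i, b + m + 1 + 2 * i ≤ n →
    (Gset n m b i).card ^ 2 * (2 * i + m + 2) ≤ (n - 1).factorial ^ 2 * (m + 2) := by
  intro i
  induction i with
  | zero =>
    intro _
    have : (Gset n m b 0).card ≤ (n - 1).factorial := by
      refine le_trans (Finset.card_le_card ?_) (card_A n m)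
      intro s hs
      rw [mem_G] at hs
      simp only [Aset, Finset.mem_filter, mem_Sp]
      exact ⟨hs.1, hs.2.1⟩
    simp only [mul_zero, zero_add]
    gcongr
  | succ i ih =>
    intro hi
    refine le_trans ?_ (ih (by omega))
    have h := G_step (n := n) (i := i) hb hm (by omega)
    generalize (Gset n m b (i + 1)).card = y at *
    generalize (Gset n m b i).card = x at *
    obtain ⟨d, hd⟩ : ∃ d, 2 * i + m + 2 = d + 1 := ⟨2 * i + m + 1, rfl⟩
    rw [show 2 * (i + 1) + m + 2 = d + 3 by omega]
    rw [hd] at h ⊢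
    have h1 : y * (d + 1) ≤ x * d := by nlinarith
    have h2 : (y * (d + 1)) ^ 2 ≤ (x * d) ^ 2 := Nat.pow_le_pow_left h1 2
    have h3 : d ^ 2 * (d + 3) ≤ (d + 1) ^ 3 := by nlinarith [Nat.zero_le d]
    have h4 : y ^ 2 * (d + 3) * (d + 1) ^ 2 ≤ x ^ 2 * (d + 1) * (d + 1) ^ 2 := by
      calc y ^ 2 * (d + 3) * (d + 1) ^ 2 = (y * (d + 1)) ^ 2 * (d + 3) := by ring
        _ ≤ (x * d) ^ 2 * (d + 3) := by gcongr
        _ = x ^ 2 * (d ^ 2 * (d + 3)) := by ring
        _ ≤ x ^ 2 * (d + 1) ^ 3 := by gcongr
        _ = _ := by ring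
    exact Nat.le_of_mul_le_mul_right h4 (by positivity)

lemma T_bound {n m b K : ℕ} (hb : 2 ≤ b) (hK : b + m + 1 + 2 * K = n) :
    (Tset n m).card ≤ (Gset n m b K).card + (m + 2 + 2 * K) ^ 2 * (n - 2).factorial := by
  have hsub : Tset n m ⊆ Gset n m b K ∪
      ((Finset.Icc b n ×ˢ Finset.Icc b n).biUnion fun p => (Sp (range' 1 n)).filter
        (fun s => s[n - m - 1]? = some 1 ∧ s[p.1]? = some p.2)) := by
    intro s hs
    simp only [Tset, Finset.mem_filter, mem_Sp] at hs
    obtain ⟨hP, hm, h1, j, hr⟩ := hs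
    have hP' : P n s := hP
    rw [Finset.mem_union]
    by_cases hsm : ∀ x ∈ s.drop b, x < b
    · left
      rw [mem_G]
      refine ⟨hP, h1, hsm, fun i' hi' => ?_⟩
      have e := split_at h1
      rw [show n - m - 1 + 1 = n - m by omega] at e
      have hl : (s.drop (n - m)).length = m := by rw [length_drop, hP'.len]; omega
      have e' : s = s.take (n - m - 1) ++ 1 :: (s.drop (n - m) ++ range' (n + 1) (n - n)) := by
        simpa using e
      have := good n (n - 2 * K) (s.drop (n - m)) (by omega) (fun x hx => by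
        have := hsm _ ((drop_sublist_drop_left s (show b ≤ n - m by omega)).subset hx)
        omega) (n - 2 * i') (by omega) j (s.take (n - m - 1)) n
        (by rw [length_take, hP'.len]; omega) le_rfl (by omega) (by rw [← e']; exact hP)
        (by rw [← e']; exact hr)
      rw [← e', hl] at this
      exact this
    · right
      push Not at hsm
      obtain ⟨x, hx, hbx⟩ := hsm
      obtain ⟨i, hi⟩ := mem_iff_getElem?.1 hx
      rw [getElem?_drop] at hi
      have h2 := ((hP'.mem x).1 (mem_of_mem_drop hx)).2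
      have h3 : b + i < n := by
        rw [← hP'.len]; exact (List.getElem?_eq_some_iff.1 hi).1
      simp only [Finset.mem_biUnion, Finset.mem_product, Finset.mem_Icc, Finset.mem_filter, mem_Sp]
      exact ⟨(b + i, x), ⟨⟨by omega, by omega⟩, hbx, h2⟩, hP, h1, hi⟩
  refine (Finset.card_le_card hsub).trans ((Finset.card_union_le _ _).trans ?_)
  gcongr
  refine (Finset.card_biUnion_le_card_mul _ _ ((n - 2).factorial) ?_).trans ?_
  · intro p hp
    simp only [Finset.mem_product, Finset.mem_Icc] at hp
    have := cnt2 (range' 1 n) (n - m - 1) 1 p.1 p.2 (by rw [mem_range'_1]; omega) (by omega)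
    simpa using this
  · rw [Finset.card_product, Nat.card_Icc, show n + 1 - b = m + 2 + 2 * K by omega, sq]

end Pool.Agent.H.MP_79f629_co
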