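import Pool.Agent.H.MP_79f629_co.D

namespace Pool.Agent.H.MP_79f629_co
open List Filter Topology
open scoped Classical

lemma T_small {m : ℕ} (hm : 1 ≤ m) :
    Tendsto (fun n => ((Tset n m).card : ℝ) / (n - 1).factorial) atTop (𝓝 0) := by
  rw [Metric.tendsto_atTop]
  intro ε hε
  obtain ⟨K, hK⟩ := exists_nat_gt (((m : ℝ) + 2) / (ε / 2) ^ 2)
  obtain ⟨N, hN⟩ := exists_nat_gt ((((m + 2 + 2 * K) ^ 2 : ℕ) : ℝ) / (ε / 2))
  refine ⟨N + m + 3 + 2 * K, fun n hn => ?_⟩
  obtain ⟨b, hb⟩ : ∃ b, b + m + 1 + 2 * K = n := ⟨n - (m + 1 + 2 * K), by omega⟩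
  have h1 := T_bound (n := n) (m := m) (b := b) (K := K) (by omega) hb
  have h2 := G_bound (n := n) (m := m) (b := b) (by omega) hm K hb.le
  obtain ⟨k, rfl⟩ : ∃ k, n = k + 2 := ⟨n - 2, by omega⟩
  rw [show k + 2 - 2 = k by omega] at h1
  rw [show k + 2 - 1 = k + 1 by omega] at h2 ⊢
  have hf : (0 : ℝ) < (k + 1).factorial := by positivity
  have hf0 : (0 : ℝ) < k.factorial := by positivity
  rw [Real.dist_eq, sub_zero, abs_of_nonneg (by positivity), div_lt_iff₀ hf]
  generalize (m + 2 + 2 * K) ^ 2 = D at *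
  have h1' : ((Tset (k + 2) m).card : ℝ) ≤ (Gset (k + 2) m b K).card + D * k.factorial := by
    exact_mod_cast h1
  have h2' : ((Gset (k + 2) m b K).card : ℝ) ^ 2 * (2 * K + m + 2) ≤
      ((k + 1).factorial : ℝ) ^ 2 * (m + 2) := by exact_mod_cast h2
  have he : 0 < ε / 2 := by positivity
  rw [div_lt_iff₀ (by positivity)] at hK
  rw [div_lt_iff₀ he] at hN
  have h3 : ((Gset (k + 2) m b K).card : ℝ) ≤ ε / 2 * (k + 1).factorial := by
    apply le_of_sq_le_sq _ (by positivity) |> fun h => h
    have hpos : (0 : ℝ) < 2 * K + m + 2 := by positivity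
    refine le_of_mul_le_mul_right (h2'.trans ?_) hpos
    have : (m : ℝ) + 2 ≤ (ε / 2) ^ 2 * (2 * K + m + 2) := by
      have : (K : ℝ) ≤ 2 * K + m + 2 := by
        have : (0 : ℝ) ≤ K := by positivity
        have : (0 : ℝ) ≤ m := by positivity
        linarith
      nlinarith [sq_nonneg (ε / 2)]
    calc ((k + 1).factorial : ℝ) ^ 2 * (m + 2) ≤
        ((k + 1).factorial : ℝ) ^ 2 * ((ε / 2) ^ 2 * (2 * K + m + 2)) := by gcongr
      _ = _ := by ring
  have h4 : (D : ℝ) * k.factorial < ε / 2 * (k + 1).factorial := by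
    rw [Nat.factorial_succ]
    push_cast
    have : (N : ℝ) ≤ k + 1 := by exact_mod_cast (show N ≤ k + 1 by omega)
    have : (D : ℝ) < ε / 2 * (k + 1) := by nlinarith
    nlinarith
  linarith

noncomputable def Tall (n : ℕ) : Finset (List ℕ) :=
  (Sp (range' 1 n)).filter (fun s => Reach s (range' 1 n))

lemma Tall_card {n : ℕ} (hn : 1 ≤ n) :
    (Tall n).card = ∑ m ∈ Finset.range n, (Tset n m).card := by
  rw [← Finset.card_biUnion]
  · congr 1
    ext s
    simp only [Tall, Tset, Finset.mem_filter, Finset.mem_biUnion, Finset.mem_range, mem_Sp]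
    constructor
    · rintro ⟨hP, hr⟩
      have hP' : P n s := hP
      obtain ⟨i, hi⟩ := mem_iff_getElem?.1 ((hP'.mem 1).2 ⟨le_rfl, hn⟩)
      have h3 : i < n := by rw [← hP'.len]; exact (List.getElem?_eq_some_iff.1 hi).1
      refine ⟨n - 1 - i, by omega, hP, by omega, ?_, hr⟩
      rw [show n - (n - 1 - i) - 1 = i by omega]; exact hi
    · rintro ⟨m, -, hP, -, -, hr⟩
      exact ⟨hP, hr⟩
  · intro m hm m' hm' hne
    rw [Function.onFun, Finset.disjoint_left]
    intro s hs hs'
    simp only [Tset, Finset.mem_filter, mem_Sp] at hs hs'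
    have hP' : P n s := hs.1
    obtain ⟨a, h1⟩ := List.getElem?_eq_some_iff.1 hs.2.2.1
    obtain ⟨a', h2⟩ := List.getElem?_eq_some_iff.1 hs'.2.2.1
    have := (hP'.nodup.getElem_inj_iff).1 (h1.trans h2.symm)
    have := hs.2.1
    have := hs'.2.1
    omega

lemma main : Tendsto (fun n => ((Tall n).card : ℝ) / (n - 1).factorial) atTop (𝓝 1) := by
  have h := tendsto_tsum_of_dominated_convergence (𝓕 := atTop)
    (f := fun n m => ((Tset n m).card : ℝ) / (n - 1).factorial)
    (g := fun m => if m = 0 then 1 else 0) (bound := fun m => (1 : ℝ) ^ m / m.factorial)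
    (Real.summable_pow_div_factorial 1) ?_ ?_
  · rw [tsum_ite_eq] at h
    refine h.congr' ?_
    filter_upwards [eventually_ge_atTop 1] with n hn
    rw [Tall_card hn, tsum_eq_sum (s := Finset.range n)]
    · push_cast
      rw [Finset.sum_div]
    · intro m hm
      have : Tset n m = ∅ := by
        rw [Tset, Finset.filter_eq_empty_iff]
        intro s _ h
        exact hm (Finset.mem_range.2 h.1)
      simp [this]
  · intro m
    by_cases hm : m = 0
    · subst hm
      simp only [if_true]
      refine tendsto_const_nhds.congr' ?_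
      filter_upwards [eventually_ge_atTop 1] with n hn
      rw [T_zero hn, div_self (by positivity)]
    · simp only [hm, if_false]
      exact T_small (by omega)
  · refine Eventually.of_forall fun n m => ?_
    rw [Real.norm_eq_abs, abs_of_nonneg (by positivity), one_pow,
      div_le_div_iff₀ (by positivity) (by positivity), one_mul]
    exact_mod_cast T_fact n m

lemma step_id (n : ℕ) : step (range' 1 n) = range' 1 n := by
  cases n with
  | zero => rfl
  | succ n => simp [range'_succ, step]

lemma reach_step (n : ℕ) (s : List ℕ) :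
    Reach s (range' 1 n) ↔ Reach (step s) (range' 1 n) := by
  constructor
  · rintro ⟨j, hj⟩
    refine ⟨j, ?_⟩
    rw [← Function.iterate_succ_apply, Function.iterate_succ_apply', hj, step_id]
  · rintro ⟨j, hj⟩
    exact ⟨j + 1, hj⟩

def Bump (s t : List ℕ) : Prop := ∃ i, 2 ≤ i ∧ s[i - 1]? = some i ∧ t = i :: s.eraseIdx (i - 1)

lemma Bump.step_eq {s t : List ℕ} (h : Bump s t) : step t = s ∧ t ~ s := by
  obtain ⟨i, -, h, rfl⟩ := h
  obtain ⟨hx, h1⟩ := List.getElem?_eq_some_iff.1 h
  constructor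
  · have := insertIdx_eraseIdx_getElem hx
    rw [h1] at this
    exact this
  · have := getElem_cons_eraseIdx_perm hx
    rw [h1] at this
    exact this

lemma eqv_iff (n : ℕ) {s t : List ℕ} (h : Relation.EqvGen Bump s t) :
    (P n s ∧ Reach s (range' 1 n)) ↔ (P n t ∧ Reach t (range' 1 n)) := by
  induction h with
  | rel s t h =>
    obtain ⟨h1, h2⟩ := h.step_eq
    rw [reach_step n t, h1]
    exact and_congr_left fun _ => ⟨fun h => h2.trans h, fun h => h2.symm.trans h⟩
  | refl => exact Iff.rfl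
  | symm _ _ _ ih => exact ih.symm
  | trans _ _ _ _ _ ih1 ih2 => exact ih1.trans ih2

lemma eqv_step {n : ℕ} {s : List ℕ} (hP : P n s) : Relation.EqvGen Bump (step s) s := by
  cases s with
  | nil => exact Relation.EqvGen.refl _
  | cons k l =>
    have h1 := (hP.mem k).1 (by simp)
    have h2 := hP.len
    simp only [length_cons] at h2
    by_cases hk : k = 1
    · subst hk
      exact Relation.EqvGen.refl _
    · refine Relation.EqvGen.rel _ _ ⟨k, by omega, ?_, ?_⟩
      · simp only [step]
        rw [getElem?_insertIdx_self, if_pos (by omega)]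
      · simp only [step]
        rw [eraseIdx_insertIdx_self]

lemma comp_eq (n : ℕ) : {s | Relation.EqvGen Bump (range' 1 n) s} = (Tall n : Set (List ℕ)) := by
  ext s
  simp only [Set.mem_ofPred_eq, Tall, Finset.coe_filter, mem_Sp]
  constructor
  · intro h
    exact (eqv_iff n h).1 ⟨Perm.refl _, Reach.rfl' _⟩
  · rintro ⟨hP, j, hj⟩
    induction j generalizing s with
    | zero => rw [← hj]; exact Relation.EqvGen.refl _
    | succ j ih =>
      exact Relation.EqvGen.trans _ _ _ (ih (step s) (P.step hP) hj) (eqv_step hP)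

end Pool.Agent.H.MP_79f629_co
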